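import Pool.Agent.H74.G.R_seed8.Y504.CO.Stm

/-!
# Project CO (helper504), job T4: minimal limits give a connection

Proof plan by helper504.
-/

set_option autoImplicit false

open Filter Set Metric Topology

universe u

namespace Pool.Agent.Y306.CO

open Pool.Agent.TH80.OMS Pool.Agent.Y504.CO

section pow

variable {X : Type u} [TopologicalSpace X] (f : X ≃ₜ X)

theorem npow_apply (n : ℕ) (x : X) : (f ^ n : X ≃ₜ X) x = f^[n] x := by
  induction n generalizing x with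
  | zero => simp
  | succ n ih => rw [pow_succ, Homeomorph.mul_apply, ih, Function.iterate_succ_apply]

theorem zpow_nat (n : ℕ) (x : X) : (f ^ (n : ℤ) : X ≃ₜ X) x = f^[n] x := by
  rw [zpow_natCast, npow_apply]

theorem zadd (i j : ℤ) (x : X) : (f ^ (i + j) : X ≃ₜ X) x = (f ^ i) ((f ^ j) x) := by
  rw [zpow_add]
  rfl

theorem zstep (i : ℤ) (x : X) : f ((f ^ i : X ≃ₜ X) x) = (f ^ (i + 1)) x := by
  rw [add_comm, zadd, zpow_one]

variable {f}

theorem conv [CompactSpace X] {p : X} {O : Set X}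
    (hO : ∀ x : ℤ → X, (∀ i, f (x i) = x (i + 1)) → (∀ i, x i ∈ closure O) → x 0 ∈ orb f p)
    {z : X} {l : Filter ℤ} (hl : ∀ m : ℤ, Tendsto (fun i => i + m) l l)
    (h : ∀ᶠ i in l, (f ^ i : X ≃ₜ X) z ∈ closure O) {O' : Set X} (hO' : IsOpen O')
    (hp : orb f p ⊆ O') : ∀ᶠ i in l, (f ^ i : X ≃ₜ X) z ∈ O' := by
  by_contra hcon
  have hfr : ∃ᶠ i in l, i ∈ {i : ℤ | (f ^ i : X ≃ₜ X) z ∉ O'} := not_eventually.1 hcon
  have hne : (l ⊓ 𝓟 {i : ℤ | (f ^ i : X ≃ₜ X) z ∉ O'}).NeBot := frequently_mem_iff_neBot.1 hfr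
  set U := Ultrafilter.of (l ⊓ 𝓟 {i : ℤ | (f ^ i : X ≃ₜ X) z ∉ O'}) with hUdef
  have hU : (U : Filter ℤ) ≤ l ⊓ 𝓟 {i : ℤ | (f ^ i : X ≃ₜ X) z ∉ O'} := Ultrafilter.of_le _
  have hUl : (U : Filter ℤ) ≤ l := hU.trans inf_le_left
  have hUn : ∀ᶠ i in (U : Filter ℤ), (f ^ i : X ≃ₜ X) z ∈ O'ᶜ :=
    (hU.trans inf_le_right) (mem_principal_self _)
  have : Nonempty X := ⟨z⟩
  obtain ⟨y, hy⟩ : ∃ y, Tendsto (fun i : ℤ => (f ^ i : X ≃ₜ X) z) (U : Filter ℤ) (𝓝 y) :=
    ⟨_, Ultrafilter.le_nhds_lim (U.map (fun i : ℤ => (f ^ i : X ≃ₜ X) z))⟩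
  have hyO : y ∈ O'ᶜ := hO'.isClosed_compl.mem_of_tendsto hy hUn
  have hm : ∀ m : ℤ, (f ^ m : X ≃ₜ X) y ∈ closure O := by
    intro m
    have h1 : Tendsto (fun i : ℤ => (f ^ m : X ≃ₜ X) ((f ^ i : X ≃ₜ X) z)) (U : Filter ℤ)
        (𝓝 ((f ^ m : X ≃ₜ X) y)) := ((f ^ m : X ≃ₜ X).continuous.tendsto y).comp hy
    refine isClosed_closure.mem_of_tendsto h1 ?_
    filter_upwards [hUl ((hl m).eventually h)] with i hi
    rw [← zadd, add_comm]
    exact hi
  have h2 := hO (fun i => (f ^ i : X ≃ₜ X) y) (fun i => zstep f i y) hm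
  exact hyO (hp (by simpa using h2))

theorem alpha_of [CompactSpace X] {p : X} {O : Set X}
    (hO : ∀ x : ℤ → X, (∀ i, f (x i) = x (i + 1)) → (∀ i, x i ∈ closure O) → x 0 ∈ orb f p)
    {w : X} (h : ∀ i : ℤ, i ≤ -1 → (f ^ i : X ≃ₜ X) w ∈ closure O) : AlphaTo f w p := by
  refine ⟨fun i => (f ^ i : X ≃ₜ X) w, fun i => zstep f i w, by simp, fun O' hO' hp => ?_⟩
  refine conv hO (fun m => tendsto_atBot_add_const_right _ m tendsto_id) ?_ hO' hp
  filter_upwards [eventually_le_atBot (-1 : ℤ)] with i hi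
  exact h i hi

theorem omega_of [CompactSpace X] {p : X} {O : Set X}
    (hO : ∀ x : ℤ → X, (∀ i, f (x i) = x (i + 1)) → (∀ i, x i ∈ closure O) → x 0 ∈ orb f p)
    {s : X} (h : ∀ i : ℕ, 1 ≤ i → f^[i] s ∈ closure O) : OmegaTo f s p := by
  intro O' hO' hp
  have h1 : ∀ᶠ i : ℤ in atTop, (f ^ i : X ≃ₜ X) s ∈ O' := by
    refine conv hO (fun m => tendsto_atTop_add_const_right _ m tendsto_id) ?_ hO' hp
    filter_upwards [eventually_ge_atTop (1 : ℤ)] with i hi
    obtain ⟨n, rfl⟩ := Int.eq_ofNat_of_zero_le (by omega : 0 ≤ i)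
    rw [zpow_nat]
    exact h n (by omega)
  filter_upwards [tendsto_natCast_atTop_atTop.eventually h1] with i hi
  rwa [zpow_nat] at hi

theorem not_per_omega {O : Set X} {s : X} (h : ∀ᶠ i : ℕ in atTop, f^[i] s ∈ O) (hs : s ∉ O) :
    s ∉ Per f := by
  rintro ⟨m, hm, hms⟩
  obtain ⟨N, hN⟩ := eventually_atTop.1 h
  have h1 : Function.IsPeriodicPt f (N * m) s := Function.IsPeriodicPt.const_mul hms N
  have h2 := hN (N * m) (Nat.le_mul_of_pos_right _ (by omega))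
  have h3 : f^[N * m] s = s := h1
  rw [h3] at h2
  exact hs h2

theorem not_per_alpha {O : Set X} {w : X} (h : ∀ᶠ i : ℤ in atBot, (f ^ i : X ≃ₜ X) w ∈ O)
    (hw : w ∉ O) : w ∉ Per f := by
  rintro ⟨m, hm, hms⟩
  obtain ⟨N, hN⟩ := eventually_atBot.1 h
  have h1 : Function.IsPeriodicPt f (N.natAbs * m) w := Function.IsPeriodicPt.const_mul hms _
  have h3 : f^[N.natAbs * m] w = w := h1
  have h4 : (f ^ (-((N.natAbs * m : ℕ) : ℤ)) : X ≃ₜ X) w = w := by
    conv_lhs => rw [← h3]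
    rw [← zpow_nat f, ← zadd, neg_add_cancel]
    simp
  have h5 : -((N.natAbs * m : ℕ) : ℤ) ≤ N := by
    have h6 : N.natAbs ≤ N.natAbs * m := Nat.le_mul_of_pos_right _ (by omega)
    have h7 : ((N.natAbs : ℕ) : ℤ) ≤ ((N.natAbs * m : ℕ) : ℤ) := by exact_mod_cast h6
    omega
  have h2 := hN _ h5
  rw [h4] at h2
  exact hw h2

end pow

section met

variable {X : Type u} [MetricSpace X]

theorem Seg.mono {f : X → X} {H : Set X} {ε ε' : ℝ} {p : X} {n : ℕ} (h : Seg f H ε p n)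
    (hε : ε ≤ ε') : Seg f H ε' p n := by
  refine ⟨h.n1, h.ends.trans_le hε, fun i hi => ?_, fun y hy => ?_⟩
  · obtain ⟨y, hy, h1⟩ := h.near i hi
    exact ⟨y, hy, h1.trans_le hε⟩
  · obtain ⟨i, hi, h1⟩ := h.dense y hy
    exact ⟨i, hi, h1.trans_le hε⟩

theorem seg_of_seq {f : X → X} {H : Set X} {p : ℕ → X} {n : ℕ → ℕ}
    (h : ∀ k : ℕ, Seg f H (1 / ((k : ℝ) + 1)) (p k) (n k)) (ε : ℝ) (hε : 0 < ε) :
    ∀ᶠ k in atTop, Seg f H ε (p k) (n k) := by
  have h1 : ∀ᶠ k : ℕ in atTop, 1 / ((k : ℝ) + 1) < ε :=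
    (tendsto_order.1 tendsto_one_div_add_atTop_nhds_zero_nat).2 ε hε
  filter_upwards [h1] with k hk
  exact Seg.mono (h k) hk.le

variable [CompactSpace X]

/-- a revisited isolated point -/
theorem claim1 (h2 : S_T2.{u}) (hI : S_TI.{u}) (h3 : S_T3.{u}) {f : X ≃ₜ X}
    (hC : (Omega f).Countable) (hIso : ∀ p ∈ Per f, Isolated f p) {H : Set X} (hH : MinLim f H)
    {z : X} {ρ : ℝ} (hz : Isol H ρ z)
    (h : ∀ ε : ℝ, 0 < ε → ∃ p n, Seg f H ε p n ∧ ∃ i j, i < j ∧ j ≤ n ∧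
      dist (f^[i] p) z < ρ / 2 ∧ dist (f^[j] p) z < ρ / 2) : Out f := by
  classical
  have hρ : 0 < ρ := hz.1
  have hzP : z ∉ Per f := (hI X f hC hIso H hH).2.1 z ρ hz
  -- consecutive times
  have hstep : ∀ k : ℕ, ∃ (p : X) (n i j : ℕ), Seg f H (1 / ((k : ℝ) + 1)) p n ∧ i < j ∧ j ≤ n ∧
      dist (f^[i] p) z < 1 / ((k : ℝ) + 1) ∧ dist (f^[j] p) z < 1 / ((k : ℝ) + 1) ∧
      ∀ t, i < t → t < j → ρ / 2 ≤ dist (f^[t] p) z := by
    intro k
    have hk : 0 < 1 / ((k : ℝ) + 1) := by positivity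
    obtain ⟨p, n, hS, i, j, hij, hjn, hi, hj⟩ := h (min (1 / ((k : ℝ) + 1)) (ρ / 2))
      (lt_min hk (half_pos hρ))
    have hex : ∃ t, i < t ∧ dist (f^[t] p) z < ρ / 2 := ⟨j, hij, hj⟩
    have hfind := Nat.find_spec hex
    have hle : Nat.find hex ≤ j := Nat.find_min' hex ⟨hij, hj⟩
    have hclose : ∀ t, t ≤ n → dist (f^[t] p) z < ρ / 2 → dist (f^[t] p) z < 1 / ((k : ℝ) + 1) := by
      intro t ht htz
      obtain ⟨y, hy, hyt⟩ := hS.near t ht
      have h1 : dist y z < ρ := by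
        have h4 := dist_triangle y (f^[t] p) z
        have h5 := lt_of_lt_of_le hyt (min_le_right _ _)
        rw [dist_comm y (f^[t] p)] at h4
        linarith
      have h6 : y = z := hz.2.2 y hy h1
      rw [h6] at hyt
      exact lt_of_lt_of_le hyt (min_le_left _ _)
    refine ⟨p, n, i, Nat.find hex, Seg.mono hS (min_le_left _ _), hfind.1, hle.trans hjn,
      hclose i (by omega) hi, hclose _ (hle.trans hjn) hfind.2, ?_⟩
    intro t ht1 ht2
    by_contra hcon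
    push Not at hcon
    exact Nat.find_min hex ht2 ⟨ht1, hcon⟩
  choose p n i j hS hij hjn hi hj hbet using hstep
  have hlim0 := tendsto_one_div_add_atTop_nhds_zero_nat (𝕜 := ℝ)
  have hti : Tendsto (fun k => f^[i k] (p k)) atTop (𝓝 z) := by
    rw [tendsto_iff_dist_tendsto_zero]
    exact squeeze_zero (fun k => dist_nonneg) (fun k => (hi k).le) hlim0
  have htj : Tendsto (fun k => f^[j k] (p k)) atTop (𝓝 z) := by
    rw [tendsto_iff_dist_tendsto_zero]
    exact squeeze_zero (fun k => dist_nonneg) (fun k => (hj k).le) hlim0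
  have hreb := h2 X f H hH z p n i j hzP (fun k => ⟨hij k, hjn k⟩) (seg_of_seq hS) hti htj
  refine h3 X f hC hIso H hH z (ρ / 2) ⟨half_pos hρ, hz.2.1, fun y hy hyz =>
    hz.2.2 y hy (by linarith)⟩ ?_
  intro ε hε
  have h5 : ∀ᶠ k : ℕ in atTop, 1 / ((k : ℝ) + 1) < ε := (tendsto_order.1 hlim0).2 ε hε
  obtain ⟨k, hk1, hk2⟩ := ((hreb ε hε).and h5).exists
  have hiter : ∀ t, f^[t] (f^[i k] (p k)) = f^[t + i k] (p k) := fun t =>
    (Function.iterate_add_apply f t (i k) (p k)).symm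
  refine ⟨f^[i k] (p k), j k - i k, hk1, (hi k).trans hk2, ?_, ?_⟩
  · rw [hiter, Nat.sub_add_cancel (hij k).le]
    exact (hj k).trans hk2
  · intro t ht1 ht2
    rw [hiter]
    exact hbet k _ (by omega) (by omega)

/-- closing near a nonperiodic point -/
theorem claim2 (h2 : S_T2.{u}) (hI : S_TI.{u}) (h3 : S_T3.{u}) {f : X ≃ₜ X}
    (hC : (Omega f).Countable) (hIso : ∀ p ∈ Per f, Isolated f p) {H : Set X} (hH : MinLim f H)
    {x : X} (hx : x ∉ Per f) {p : ℕ → X} {n : ℕ → ℕ}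
    (hS : ∀ ε : ℝ, 0 < ε → ∀ᶠ k in atTop, Seg f H ε (p k) (n k))
    (hp : Tendsto p atTop (𝓝 x)) (hpn : Tendsto (fun k => f^[n k] (p k)) atTop (𝓝 x)) : Out f := by
  classical
  have hHc : IsClosed H := hH.1.1
  have hpd : ∀ δ : ℝ, 0 < δ → ∀ᶠ k in atTop, dist (p k) x < δ := fun δ hδ =>
    hp.eventually (ball_mem_nhds x hδ)
  have hpnd : ∀ δ : ℝ, 0 < δ → ∀ᶠ k in atTop, dist (f^[n k] (p k)) x < δ := fun δ hδ =>
    hpn.eventually (ball_mem_nhds x hδ)
  have hxH : x ∈ H := by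
    rw [← hHc.closure_eq, Metric.mem_closure_iff]
    intro ε hε
    obtain ⟨k, hk1, hk2⟩ := ((hS (ε / 2) (half_pos hε)).and (hpd (ε / 2) (half_pos hε))).exists
    obtain ⟨y, hy, hyd⟩ := hk1.near 0 (Nat.zero_le _)
    refine ⟨y, hy, ?_⟩
    have h1 := dist_triangle x (p k) y
    rw [dist_comm x (p k)] at h1
    have h4 : dist (p k) y < ε / 2 := hyd
    linarith
  by_cases hiso : ∃ ρ, Isol H ρ x
  · obtain ⟨ρ, hρ⟩ := hiso
    refine claim1 h2 hI h3 hC hIso hH hρ fun ε hε => ?_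
    obtain ⟨k, ⟨hk1, hk2⟩, hk3⟩ := (((hS ε hε).and (hpd _ (half_pos hρ.1))).and
      (hpnd _ (half_pos hρ.1))).exists
    exact ⟨p k, n k, hk1, 0, n k, hk1.n1, le_rfl, hk2, hk3⟩
  · push Not at hiso
    have hzs : ∀ l : ℕ, ∃ (z : X) (ρ : ℝ), Isol H ρ z ∧ dist z x < 1 / ((l : ℝ) + 1) ∧ z ≠ x := by
      intro l
      obtain ⟨z, ρ, hz, hzx⟩ := (hI X f hC hIso H hH).1 x hxH (1 / ((l : ℝ) + 1)) (by positivity)
      refine ⟨z, ρ, hz, hzx, ?_⟩
      rintro rfl
      exact hiso ρ hz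
    choose z ρ hz hzx hzne using hzs
    have hd0 : ∀ l, 0 < dist (z l) x := fun l => dist_pos.2 (hzne l)
    have hsel : ∀ l : ℕ, ∃ (k t : ℕ), l ≤ k ∧ 0 < t ∧ t < n k ∧
        dist (f^[t] (p k)) (z l) < 1 / ((l : ℝ) + 1) := by
      intro l
      have hη : 0 < min (1 / ((l : ℝ) + 1)) (dist (z l) x / 2) :=
        lt_min (by positivity) (half_pos (hd0 l))
      obtain ⟨k, ⟨⟨hk1, hk2⟩, hk3⟩, hk4⟩ := ((((hS _ hη).and (hpd _ (half_pos (hd0 l)))).and
        (hpnd _ (half_pos (hd0 l)))).and (eventually_ge_atTop l)).exists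
      obtain ⟨t, ht, htz⟩ := hk1.dense (z l) (hz l).2.1
      have ht2 : dist (f^[t] (p k)) (z l) < dist (z l) x / 2 := lt_of_lt_of_le htz (min_le_right _ _)
      refine ⟨k, t, hk4, ?_, ?_, lt_of_lt_of_le htz (min_le_left _ _)⟩
      · rcases Nat.eq_zero_or_pos t with h0 | h0
        · exfalso
          rw [h0] at ht2
          have h5 : dist (p k) (z l) < dist (z l) x / 2 := ht2
          have h6 := dist_triangle (z l) (p k) x
          rw [dist_comm (z l) (p k)] at h6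
          linarith
        · exact h0
      · rcases Nat.lt_or_eq_of_le ht with h0 | h0
        · exact h0
        · exfalso
          rw [h0] at ht2
          have h6 := dist_triangle (z l) (f^[n k] (p k)) x
          rw [dist_comm (z l) (f^[n k] (p k))] at h6
          linarith
    choose κ t hκ ht0 htn htz using hsel
    have hκt : Tendsto κ atTop atTop := tendsto_atTop_mono hκ tendsto_id
    have hS' : ∀ ε : ℝ, 0 < ε → ∀ᶠ l in atTop, Seg f H ε (p (κ l)) (n (κ l)) := fun ε hε =>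
      hκt.eventually (hS ε hε)
    have hlim0 := tendsto_one_div_add_atTop_nhds_zero_nat (𝕜 := ℝ)
    have hmid : Tendsto (fun l => f^[t l] (p (κ l))) atTop (𝓝 x) := by
      rw [tendsto_iff_dist_tendsto_zero]
      have h5 : Tendsto (fun l : ℕ => 1 / ((l : ℝ) + 1) + 1 / ((l : ℝ) + 1)) atTop (𝓝 0) := by
        simpa using hlim0.add hlim0
      refine squeeze_zero (fun k => dist_nonneg) (fun l => ?_) h5
      have h6 := dist_triangle (f^[t l] (p (κ l))) (z l) x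
      have h7 := htz l
      have h8 := hzx l
      linarith
    have hA := h2 X f H hH x (fun l => p (κ l)) (fun l => n (κ l)) (fun _ => 0) t hx
      (fun l => ⟨ht0 l, (htn l).le⟩) hS' (hp.comp hκt) hmid
    have hB := h2 X f H hH x (fun l => p (κ l)) (fun l => n (κ l)) t (fun l => n (κ l)) hx
      (fun l => ⟨htn l, le_rfl⟩) hS' hmid (hpn.comp hκt)
    refine claim1 h2 hI h3 hC hIso hH (hz 0) fun ε hε => ?_
    have hε' : 0 < min (min ε (ρ 0 / 2)) (dist (z 0) x / 2) :=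
      lt_min (lt_min hε (half_pos (hz 0).1)) (half_pos (hd0 0))
    obtain ⟨l, ⟨⟨hl1, hl2⟩, hl3⟩, hl4⟩ := ((((hA _ hε').and (hB _ hε')).and (hS' ε hε)).and
      (hmid.eventually (ball_mem_nhds x (half_pos (hd0 0))))).exists
    obtain ⟨i, hi, hiz⟩ := hl1.dense (z 0) (hz 0).2.1
    obtain ⟨i', hi', hiz'⟩ := hl2.dense (z 0) (hz 0).2.1
    have hi2 : i ≤ t l := by simpa using hi
    have hiz2 : dist (f^[i] (p (κ l))) (z 0) <
        min (min ε (ρ 0 / 2)) (dist (z 0) x / 2) := hiz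
    have hiz3 : dist (f^[i' + t l] (p (κ l))) (z 0) <
        min (min ε (ρ 0 / 2)) (dist (z 0) x / 2) := by
      rw [Function.iterate_add_apply]
      exact hiz'
    refine ⟨p (κ l), n (κ l), hl3, i, i' + t l, ?_, ?_,
      lt_of_lt_of_le hiz2 ((min_le_left _ _).trans (min_le_right _ _)),
      lt_of_lt_of_le hiz3 ((min_le_left _ _).trans (min_le_right _ _))⟩
    · by_contra hcon
      have h5 : i = t l := by omega
      rw [h5] at hiz2
      have h6 : dist (f^[t l] (p (κ l))) (z 0) < dist (z 0) x / 2 :=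
        lt_of_lt_of_le hiz2 (min_le_right _ _)
      have h7 : dist (f^[t l] (p (κ l))) x < dist (z 0) x / 2 := hl4
      have h8 := dist_triangle (z 0) (f^[t l] (p (κ l))) x
      rw [dist_comm (z 0) (f^[t l] (p (κ l)))] at h8
      linarith
    · have h5 : t l ≤ n (κ l) := (htn l).le
      have h6 : i' ≤ n (κ l) - t l := hi'
      omega

/-- frequent double visits near a nonperiodic point -/
theorem claim2' (h2 : S_T2.{u}) (hI : S_TI.{u}) (h3 : S_T3.{u}) {f : X ≃ₜ X}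
    (hC : (Omega f).Countable) (hIso : ∀ p ∈ Per f, Isolated f p) {H : Set X} (hH : MinLim f H)
    {w : X} (hw : w ∉ Per f) {p : ℕ → X} {n : ℕ → ℕ}
    (hS : ∀ ε : ℝ, 0 < ε → ∀ᶠ k in atTop, Seg f H ε (p k) (n k))
    (h : ∀ δ : ℝ, 0 < δ → ∃ᶠ k in atTop, ∃ t t', t < t' ∧ t' ≤ n k ∧ dist (f^[t] (p k)) w < δ ∧
      dist (f^[t'] (p k)) w < δ) : Out f := by
  have hsel : ∀ l : ℕ, ∃ (k t t' : ℕ), l ≤ k ∧ t < t' ∧ t' ≤ n k ∧
      dist (f^[t] (p k)) w < 1 / ((l : ℝ) + 1) ∧ dist (f^[t'] (p k)) w < 1 / ((l : ℝ) + 1) := by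
    intro l
    obtain ⟨k, ⟨t, t', h4, h5, h6, h7⟩, hk⟩ :=
      ((h (1 / ((l : ℝ) + 1)) (by positivity)).and_eventually (eventually_ge_atTop l)).exists
    exact ⟨k, t, t', hk, h4, h5, h6, h7⟩
  choose κ t t' hκ htt ht'n ht ht' using hsel
  have hκt : Tendsto κ atTop atTop := tendsto_atTop_mono hκ tendsto_id
  have hS' : ∀ ε : ℝ, 0 < ε → ∀ᶠ l in atTop, Seg f H ε (p (κ l)) (n (κ l)) := fun ε hε =>
    hκt.eventually (hS ε hε)
  have hlim0 := tendsto_one_div_add_atTop_nhds_zero_nat (𝕜 := ℝ)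
  have hti : Tendsto (fun l => f^[t l] (p (κ l))) atTop (𝓝 w) := by
    rw [tendsto_iff_dist_tendsto_zero]
    exact squeeze_zero (fun k => dist_nonneg) (fun k => (ht k).le) hlim0
  have htj : Tendsto (fun l => f^[t' l] (p (κ l))) atTop (𝓝 w) := by
    rw [tendsto_iff_dist_tendsto_zero]
    exact squeeze_zero (fun k => dist_nonneg) (fun k => (ht' k).le) hlim0
  have hA := h2 X f H hH w (fun l => p (κ l)) (fun l => n (κ l)) t t' hw
    (fun l => ⟨htt l, ht'n l⟩) hS' hti htj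
  refine claim2 h2 hI h3 hC hIso hH hw hA hti ?_
  refine htj.congr fun l => ?_
  rw [← Function.iterate_add_apply, Nat.sub_add_cancel (htt l).le]

end met

theorem main (h0 : S_T0.{u}) (h2 : S_T2.{u}) (hI : S_TI.{u}) (h3 : S_T3.{u}) : S_T4.{u} := by
  intro X _ _ f hC hIso H hH
  classical
  obtain ⟨⟨hHc, hHne, hHS⟩, hHP, hHmin⟩ := hH
  have hH : MinLim f H := ⟨⟨hHc, hHne, hHS⟩, hHP, hHmin⟩
  choose p₀ n₀ hS₀ using fun k : ℕ => hHS (1 / ((k : ℝ) + 1)) (by positivity)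
  obtain ⟨x, φ, hφ, hx⟩ := CompactSpace.tendsto_subseq p₀
  set p : ℕ → X := fun k => p₀ (φ k) with hpdef
  set n : ℕ → ℕ := fun k => n₀ (φ k) with hndef
  have hS : ∀ ε : ℝ, 0 < ε → ∀ᶠ k in atTop, Seg f H ε (p k) (n k) := fun ε hε =>
    hφ.tendsto_atTop.eventually (seg_of_seq hS₀ ε hε)
  have hp : Tendsto p atTop (𝓝 x) := hx
  have hends : Tendsto (fun k => dist (f^[n k] (p k)) (p k)) atTop (𝓝 0) := by
    rw [Metric.tendsto_atTop']
    intro ε hε
    obtain ⟨N, hN⟩ := eventually_atTop.1 (hS ε hε)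
    refine ⟨N, fun k hk => ?_⟩
    rw [Real.dist_eq, sub_zero, abs_of_nonneg dist_nonneg]
    exact (hN k hk.le).ends
  have hpn : Tendsto (fun k => f^[n k] (p k)) atTop (𝓝 x) := by
    rw [tendsto_iff_dist_tendsto_zero] at hp ⊢
    have h5 := hends.add hp
    rw [add_zero] at h5
    exact squeeze_zero (fun k => dist_nonneg) (fun k => dist_triangle _ _ _) h5
  by_cases hxP : x ∉ Per f
  · exact claim2 h2 hI h3 hC hIso hH hxP hS hp hpn
  push Not at hxP
  obtain ⟨O, hO, hpO, hOi⟩ := hIso x hxP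
  -- every segment leaves `O`
  have hout : ∀ᶠ k in atTop, ∃ i, i ≤ n k ∧ f^[i] (p k) ∉ O := by
    have h5 : ∃ y ∈ H, y ∉ closure O := by
      by_contra hcon
      push Not at hcon
      apply hHP
      intro y hy
      have hinv : f '' H = H := (h0 X f).2.1 H hH.1
      have hmem : ∀ y ∈ H, f y ∈ H := fun y hy => by
        rw [← hinv]
        exact ⟨y, hy, rfl⟩
      have hmem' : ∀ y ∈ H, f.symm y ∈ H := fun y hy => by
        rw [← hinv] at hy
        obtain ⟨v, hv, rfl⟩ := hy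
        rwa [f.symm_apply_apply]
      have hz : ∀ (i : ℤ), ∀ y ∈ H, (f ^ i : X ≃ₜ X) y ∈ H := by
        intro i
        induction i using Int.induction_on with
        | zero => intro y hy; simpa using hy
        | succ i ih =>
          intro y hy
          rw [← zstep]
          exact hmem _ (ih y hy)
        | pred i ih =>
          intro y hy
          have e : (-(i : ℤ) - 1) = -1 + -(i : ℤ) := by ring
          rw [e, zadd, zpow_neg_one]
          exact hmem' _ (ih y hy)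
      have h6 := hOi (fun i => (f ^ i : X ≃ₜ X) y) (fun i => zstep f i y)
        (fun i => hcon _ (hz i y hy))
      obtain ⟨j, hj⟩ : y ∈ orb f x := by simpa using h6
      obtain ⟨m, hm, hmx⟩ := hxP
      refine ⟨m, hm, ?_⟩
      change f^[j] x = y at hj
      rw [← hj, ← Function.iterate_add_apply, add_comm, Function.iterate_add_apply, hmx]
    obtain ⟨y, hy, hyO⟩ := h5
    obtain ⟨r, hr, hrO⟩ := Metric.isOpen_iff.1 isClosed_closure.isOpen_compl y hyO
    filter_upwards [hS r hr] with k hk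
    obtain ⟨i, hi, hiy⟩ := hk.dense y hy
    refine ⟨i, hi, fun hcon => ?_⟩
    exact hrO (mem_ball.2 hiy) (subset_closure hcon)
  obtain ⟨N₀, hN₀⟩ := eventually_atTop.1 hout
  -- shift the sequence
  set P : ℕ → X := fun k => p (k + N₀) with hPdef
  set M : ℕ → ℕ := fun k => n (k + N₀) with hMdef
  have hsh : Tendsto (fun k : ℕ => k + N₀) atTop atTop := tendsto_add_atTop_nat N₀
  have hex : ∀ k, ∃ i, i ≤ M k ∧ f^[i] (P k) ∉ O := fun k => hN₀ (k + N₀) (Nat.le_add_left _ _)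
  have hPS : ∀ ε : ℝ, 0 < ε → ∀ᶠ k in atTop, Seg f H ε (P k) (M k) := fun ε hε =>
    hsh.eventually (hS ε hε)
  have hP : Tendsto P atTop (𝓝 x) := hp.comp hsh
  have hPM : Tendsto (fun k => f^[M k] (P k)) atTop (𝓝 x) := hpn.comp hsh
  -- first and last exit
  set e : ℕ → ℕ := fun k => Nat.find (hex k) with hedef
  have he1 : ∀ k, e k ≤ M k ∧ f^[e k] (P k) ∉ O := fun k => Nat.find_spec (hex k)
  have he2 : ∀ k i, i < e k → f^[i] (P k) ∈ O := by
    intro k i hi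
    by_contra hcon
    exact Nat.find_min (hex k) hi ⟨by have := (he1 k).1; omega, hcon⟩
  set g : ℕ → ℕ := fun k => Nat.findGreatest (fun i => f^[i] (P k) ∉ O) (M k) with hgdef
  have hg1 : ∀ k, g k ≤ M k := fun k => Nat.findGreatest_le _
  have hg2 : ∀ k, f^[g k] (P k) ∉ O := fun k =>
    Nat.findGreatest_spec (P := fun i => f^[i] (P k) ∉ O) (he1 k).1 (he1 k).2
  have hg3 : ∀ k i, g k < i → i ≤ M k → f^[i] (P k) ∈ O := by
    intro k i hi hiM
    by_contra hcon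
    exact Nat.findGreatest_is_greatest hi hiM hcon
  have heg : ∀ k, e k ≤ g k := fun k => Nat.le_findGreatest (he1 k).1 (he1 k).2
  have hziter : ∀ (i : ℤ) (j : ℕ) (y : X) (h : 0 ≤ i + j),
      (f ^ i : X ≃ₜ X) (f^[j] y) = f^[(i + j).toNat] y := by
    intro i j y h
    rw [← zpow_nat f j, ← zadd, ← zpow_nat f, Int.toNat_of_nonneg h]
  -- the exit times tend to infinity
  have hetop : ∀ m : ℕ, ∀ᶠ k in atTop, m < e k := by
    intro m
    have h5 : ∀ᶠ k in atTop, ∀ i ∈ Finset.range (m + 1), f^[i] (P k) ∈ O := by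
      rw [Filter.eventually_all_finset]
      intro i _
      have h6 : Tendsto (fun k => f^[i] (P k)) atTop (𝓝 (f^[i] x)) :=
        ((f.continuous.iterate i).tendsto x).comp hP
      exact h6.eventually (hO.mem_nhds (hpO ⟨i, rfl⟩))
    filter_upwards [h5] with k hk
    by_contra hcon
    exact (he1 k).2 (hk (e k) (Finset.mem_range.2 (by omega)))
  have hgtop : ∀ m : ℕ, ∀ᶠ k in atTop, g k + m < M k := by
    intro m
    have h5 : ∀ᶠ k in atTop, ∀ i ∈ Finset.range (m + 1),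
        (f ^ (-(i : ℤ)) : X ≃ₜ X) (f^[M k] (P k)) ∈ O := by
      rw [Filter.eventually_all_finset]
      intro i _
      have h6 : Tendsto (fun k => (f ^ (-(i : ℤ)) : X ≃ₜ X) (f^[M k] (P k))) atTop
          (𝓝 ((f ^ (-(i : ℤ)) : X ≃ₜ X) x)) :=
        ((f ^ (-(i : ℤ)) : X ≃ₜ X).continuous.tendsto x).comp hPM
      refine h6.eventually (hO.mem_nhds (hpO ?_))
      obtain ⟨m', hm', hmx⟩ := hxP
      have h7 : Function.IsPeriodicPt f (i * m') x := Function.IsPeriodicPt.const_mul hmx i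
      have h8 : f^[i * m'] x = x := h7
      refine ⟨i * m' - i, ?_⟩
      change f^[i * m' - i] x = (f ^ (-(i : ℤ)) : X ≃ₜ X) x
      conv_rhs => rw [← h8]
      have h9 : i ≤ i * m' := Nat.le_mul_of_pos_right _ (by omega)
      rw [hziter _ _ _ (by omega)]
      congr 1
      omega
    filter_upwards [h5] with k hk
    by_contra hcon
    have h6 := hg1 k
    have h7 := hk (M k - g k) (Finset.mem_range.2 (by omega))
    rw [hziter _ _ _ (by omega)] at h7
    have h8 : (-((M k - g k : ℕ) : ℤ) + (M k : ℤ)).toNat = g k := by omega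
    rw [h8] at h7
    exact hg2 k h7
  -- limits of the exit points
  obtain ⟨w, ψ, hψ, hw⟩ := CompactSpace.tendsto_subseq (fun k => f^[e k] (P k))
  obtain ⟨s, θ, hθ, hs⟩ := CompactSpace.tendsto_subseq (fun k => f^[g (ψ k)] (P (ψ k)))
  set ν : ℕ → ℕ := fun k => ψ (θ k) with hνdef
  have hν : Tendsto ν atTop atTop := hψ.tendsto_atTop.comp hθ.tendsto_atTop
  have hw' : Tendsto (fun k => f^[e (ν k)] (P (ν k))) atTop (𝓝 w) := hw.comp hθ.tendsto_atTop
  have hs' : Tendsto (fun k => f^[g (ν k)] (P (ν k))) atTop (𝓝 s) := hs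
  have hwO : w ∉ O := hO.isClosed_compl.mem_of_tendsto hw'
    (Eventually.of_forall fun k => (he1 (ν k)).2)
  have hsO : s ∉ O := hO.isClosed_compl.mem_of_tendsto hs'
    (Eventually.of_forall fun k => hg2 (ν k))
  have hwb : ∀ i : ℤ, i ≤ -1 → (f ^ i : X ≃ₜ X) w ∈ closure O := by
    intro i hi
    have h5 : Tendsto (fun k => (f ^ i : X ≃ₜ X) (f^[e (ν k)] (P (ν k)))) atTop
        (𝓝 ((f ^ i : X ≃ₜ X) w)) := ((f ^ i : X ≃ₜ X).continuous.tendsto w).comp hw'
    refine isClosed_closure.mem_of_tendsto h5 ?_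
    filter_upwards [hν.eventually (hetop i.natAbs)] with k hk
    rw [hziter _ _ _ (by omega)]
    exact subset_closure (he2 _ _ (by omega))
  have hsf : ∀ i : ℕ, 1 ≤ i → f^[i] s ∈ closure O := by
    intro i hi
    have h5 : Tendsto (fun k => f^[i] (f^[g (ν k)] (P (ν k)))) atTop (𝓝 (f^[i] s)) :=
      ((f.continuous.iterate i).tendsto s).comp hs'
    refine isClosed_closure.mem_of_tendsto h5 ?_
    filter_upwards [hν.eventually (hgtop i)] with k hk
    rw [← Function.iterate_add_apply]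
    exact subset_closure (hg3 _ _ (by omega) (by omega))
  have hα : AlphaTo f w x := alpha_of hOi hwb
  have hω : OmegaTo f s x := omega_of hOi hsf
  have hwP : w ∉ Per f := by
    refine not_per_alpha (O := O) ?_ hwO
    refine conv hOi (fun m => tendsto_atBot_add_const_right _ m tendsto_id) ?_ hO hpO
    filter_upwards [eventually_le_atBot (-1 : ℤ)] with i hi
    exact hwb i hi
  have hsP : s ∉ Per f := not_per_omega (hω O hO hpO) hsO
  have hS' : ∀ ε : ℝ, 0 < ε → ∀ᶠ k in atTop, Seg f H ε (P (ν k)) (M (ν k)) := fun ε hε =>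
    hν.eventually (hPS ε hε)
  by_cases hA : ∀ δ : ℝ, 0 < δ → ∃ᶠ k in atTop, ∃ t t', t < t' ∧ t' ≤ M (ν k) ∧
      dist (f^[t] (P (ν k))) w < δ ∧ dist (f^[t'] (P (ν k))) w < δ
  · exact claim2' h2 hI h3 hC hIso hH hwP hS' hA
  by_cases hB : ∀ δ : ℝ, 0 < δ → ∃ᶠ k in atTop, ∃ t t', t < t' ∧ t' ≤ M (ν k) ∧
      dist (f^[t] (P (ν k))) s < δ ∧ dist (f^[t'] (P (ν k))) s < δ
  · exact claim2' h2 hI h3 hC hIso hH hsP hS' hB
  push Not at hA hB
  obtain ⟨δ₁, hδ₁, hA⟩ := hA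
  obtain ⟨δ₂, hδ₂, hB⟩ := hB
  refine ⟨x, w, s, hxP, fun h => hwO (hpO h), fun h => hsO (hpO h), hα, hω, ball w δ₁,
    ball_mem_nhds w hδ₁, ball s δ₂, ball_mem_nhds s hδ₂, ?_⟩
  intro W hW W' hW'
  obtain ⟨k, ⟨⟨⟨⟨⟨hk1, hk2⟩, hk3⟩, hk4⟩, hk5⟩, hk6⟩⟩ := ((((((hA.and hB).and
    (hw'.eventually hW)).and (hs'.eventually hW')).and
    (hw'.eventually (ball_mem_nhds w hδ₁))).and
    (hs'.eventually (ball_mem_nhds s hδ₂)))).exists
  refine ⟨f^[e (ν k)] (P (ν k)), hk3, g (ν k) - e (ν k), ?_, ?_⟩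
  · rw [← Function.iterate_add_apply, Nat.sub_add_cancel (heg _)]
    exact hk4
  · intro i hi1 hi2
    rw [← Function.iterate_add_apply]
    have h5 := hg1 (ν k)
    have h6 := heg (ν k)
    constructor
    · intro hcon
      have h7 := hk1 (e (ν k)) (i + e (ν k)) (by omega) (by omega) hk5
      exact absurd hcon (not_lt.2 h7)
    · intro hcon
      have h7 := hk2 (i + e (ν k)) (g (ν k)) (by omega) h5 hcon
      exact absurd hk6 (not_lt.2 h7)

end Pool.Agent.Y306.CO
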