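import Pool.Agent.H74.G.R_seed8.Y504.CO.Stm3
import Pool.Agent.H74.G.R_seed8.Y306.CO.T4

/-!
# Project CO (helper504), job C1: almost closed segments without returns

Proof plan by helper504.
-/

set_option autoImplicit false

open Filter Set Metric Topology

universe u

namespace Pool.Agent.Y306.CO.C1

open Pool.Agent.TH80.OMS Pool.Agent.Y504.CO Pool.Agent.Y306.CO

theorem main (h0 : S_C0.{u}) : S_C1.{u} := by
  rintro X _ _ f z hz hzP ⟨O₀, hO₀, hzO₀, hiso⟩
  classical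
  obtain ⟨H, ⟨hHc, hHS⟩, -, hreb⟩ := h0 X f z hz
  choose p n hS₀ hp₀ hpn₀ using fun k : ℕ => hHS (1 / ((k : ℝ) + 1)) (by positivity)
  have hS := seg_of_seq hS₀
  have hlim0 := tendsto_one_div_add_atTop_nhds_zero_nat (𝕜 := ℝ)
  have hp : Tendsto p atTop (𝓝 z) := by
    rw [tendsto_iff_dist_tendsto_zero]
    exact squeeze_zero (fun k => dist_nonneg) (fun k => (hp₀ k).le) hlim0
  have hpn : Tendsto (fun k => f^[n k] (p k)) atTop (𝓝 z) := by
    rw [tendsto_iff_dist_tendsto_zero]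
    exact squeeze_zero (fun k => dist_nonneg) (fun k => (hpn₀ k).le) hlim0
  have hpd : ∀ δ : ℝ, 0 < δ → ∀ᶠ k in atTop, dist (p k) z < δ := fun δ hδ =>
    hp.eventually (ball_mem_nhds z hδ)
  have hpnd : ∀ δ : ℝ, 0 < δ → ∀ᶠ k in atTop, dist (f^[n k] (p k)) z < δ := fun δ hδ =>
    hpn.eventually (ball_mem_nhds z hδ)
  obtain ⟨r₀, hr₀, hr₀O⟩ := Metric.isOpen_iff.1 hO₀ z hzO₀
  -- `z` is isolated in `H`
  obtain ⟨ρ, hρ, hρH⟩ : ∃ ρ : ℝ, 0 < ρ ∧ ∀ y ∈ H, dist y z < ρ → y = z := by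
    by_contra hcon
    push Not at hcon
    have hzs : ∀ l : ℕ, ∃ y ∈ H, dist y z < 1 / ((l : ℝ) + 1) ∧ dist y z < r₀ ∧ y ≠ z := by
      intro l
      obtain ⟨y, hy, hyz, hne⟩ := hcon (min (1 / ((l : ℝ) + 1)) r₀)
        (lt_min (by positivity) hr₀)
      exact ⟨y, hy, hyz.trans_le (min_le_left _ _), hyz.trans_le (min_le_right _ _), hne⟩
    choose y hyH hyz hyr hyne using hzs
    have hd0 : ∀ l, 0 < dist (y l) z := fun l => dist_pos.2 (hyne l)
    have hyO : y 0 ∉ Omega f := fun h => hyne 0 (hiso _ h (hr₀O (mem_ball.2 (hyr 0))))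
    obtain ⟨W, hW, hyW, hWf⟩ : ∃ W : Set X, IsOpen W ∧ y 0 ∈ W ∧ ∀ k : ℕ, 1 ≤ k → ∀ v ∈ W,
        f^[k] v ∉ W := by
      unfold Omega at hyO
      simp only [mem_ofPred_eq] at hyO
      push Not at hyO
      exact hyO
    obtain ⟨ρ₁, hρ₁, hρ₁W⟩ := Metric.isOpen_iff.1 hW _ hyW
    have hsel : ∀ l : ℕ, ∃ (k t : ℕ), l ≤ k ∧ 0 < t ∧ t < n k ∧
        dist (f^[t] (p k)) (y l) < 1 / ((l : ℝ) + 1) := by
      intro l
      have hη : 0 < min (1 / ((l : ℝ) + 1)) (dist (y l) z / 2) :=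
        lt_min (by positivity) (half_pos (hd0 l))
      obtain ⟨k, ⟨⟨hk1, hk2⟩, hk3⟩, hk4⟩ := ((((hS _ hη).and (hpd _ (half_pos (hd0 l)))).and
        (hpnd _ (half_pos (hd0 l)))).and (eventually_ge_atTop l)).exists
      obtain ⟨t, ht, htz⟩ := hk1.dense (y l) (hyH l)
      have ht2 : dist (f^[t] (p k)) (y l) < dist (y l) z / 2 := lt_of_lt_of_le htz (min_le_right _ _)
      refine ⟨k, t, hk4, ?_, ?_, lt_of_lt_of_le htz (min_le_left _ _)⟩
      · rcases Nat.eq_zero_or_pos t with h0 | h0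
        · exfalso
          rw [h0] at ht2
          have h5 : dist (p k) (y l) < dist (y l) z / 2 := ht2
          have h6 := dist_triangle (y l) (p k) z
          rw [dist_comm (y l) (p k)] at h6
          linarith
        · exact h0
      · rcases Nat.lt_or_eq_of_le ht with h0 | h0
        · exact h0
        · exfalso
          rw [h0] at ht2
          have h6 := dist_triangle (y l) (f^[n k] (p k)) z
          rw [dist_comm (y l) (f^[n k] (p k))] at h6
          linarith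
    choose κ t hκ ht0 htn htz using hsel
    have hκt : Tendsto κ atTop atTop := tendsto_atTop_mono hκ tendsto_id
    have hS' : ∀ ε : ℝ, 0 < ε → ∀ᶠ l in atTop, Seg f H ε (p (κ l)) (n (κ l)) := fun ε hε =>
      hκt.eventually (hS ε hε)
    have hmid : Tendsto (fun l => f^[t l] (p (κ l))) atTop (𝓝 z) := by
      rw [tendsto_iff_dist_tendsto_zero]
      have h5 : Tendsto (fun l : ℕ => 1 / ((l : ℝ) + 1) + 1 / ((l : ℝ) + 1)) atTop (𝓝 0) := by
        simpa using hlim0.add hlim0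
      refine squeeze_zero (fun k => dist_nonneg) (fun l => ?_) h5
      have h6 := dist_triangle (f^[t l] (p (κ l))) (y l) z
      have h7 := htz l
      have h8 := hyz l
      linarith
    have hA := hreb (fun l => p (κ l)) (fun l => n (κ l)) (fun _ => 0) t
      (fun l => ⟨ht0 l, (htn l).le⟩) hS' (hp.comp hκt) hmid
    have hB := hreb (fun l => p (κ l)) (fun l => n (κ l)) t (fun l => n (κ l))
      (fun l => ⟨htn l, le_rfl⟩) hS' hmid (hpn.comp hκt)
    have hε' : 0 < min ρ₁ (dist (y 0) z / 2) := lt_min hρ₁ (half_pos (hd0 0))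
    obtain ⟨l, ⟨hl1, hl2⟩, hl4⟩ := (((hA _ hε').and (hB _ hε')).and
      (hmid.eventually (ball_mem_nhds z (half_pos (hd0 0))))).exists
    obtain ⟨i, hi, hiz⟩ := hl1.dense (y 0) (hyH 0)
    obtain ⟨i', hi', hiz'⟩ := hl2.dense (y 0) (hyH 0)
    have hi2 : i ≤ t l := by simpa using hi
    have hiz2 : dist (f^[i] (p (κ l))) (y 0) < min ρ₁ (dist (y 0) z / 2) := hiz
    have hiz3 : dist (f^[i' + t l] (p (κ l))) (y 0) < min ρ₁ (dist (y 0) z / 2) := by
      rw [Function.iterate_add_apply]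
      exact hiz'
    have hlt : i < i' + t l := by
      by_contra hcon
      have h5 : i = t l := by omega
      rw [h5] at hiz2
      have h6 : dist (f^[t l] (p (κ l))) (y 0) < dist (y 0) z / 2 :=
        lt_of_lt_of_le hiz2 (min_le_right _ _)
      have h7 : dist (f^[t l] (p (κ l))) z < dist (y 0) z / 2 := hl4
      have h8 := dist_triangle (y 0) (f^[t l] (p (κ l))) z
      rw [dist_comm (y 0) (f^[t l] (p (κ l)))] at h8
      linarith
    refine hWf (i' + t l - i) (by omega) (f^[i] (p (κ l)))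
      (hρ₁W (mem_ball.2 (hiz2.trans_le (min_le_left _ _)))) ?_
    rw [← Function.iterate_add_apply, Nat.sub_add_cancel hlt.le]
    exact hρ₁W (mem_ball.2 (hiz3.trans_le (min_le_left _ _)))
  -- consecutive visits
  refine ⟨ball z (ρ / 2), ball_mem_nhds z (half_pos hρ), fun W hW => ?_⟩
  obtain ⟨r, hr, hrW⟩ := Metric.mem_nhds_iff.1 hW
  obtain ⟨a, m, hSa, ha, ham⟩ := hHS (min r (ρ / 2)) (lt_min hr (half_pos hρ))
  have hex : ∃ t, 0 < t ∧ t ≤ m ∧ dist (f^[t] a) z < ρ / 2 :=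
    ⟨m, hSa.n1, le_rfl, ham.trans_le (min_le_right _ _)⟩
  obtain ⟨h1, h2, h3⟩ := Nat.find_spec hex
  refine ⟨a, hrW (mem_ball.2 (ha.trans_le (min_le_left _ _))), Nat.find hex, h1, ?_, ?_⟩
  · obtain ⟨v, hv, hvd⟩ := hSa.near _ h2
    have h4 : dist v z < ρ := by
      have h5 := dist_triangle v (f^[Nat.find hex] a) z
      rw [dist_comm v (f^[Nat.find hex] a)] at h5
      have h6 := hvd.trans_le (min_le_right _ _)
      linarith
    rw [hρH v hv h4] at hvd
    exact hrW (mem_ball.2 (hvd.trans_le (min_le_left _ _)))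
  · intro i hi1 hi2 hcon
    exact Nat.find_min hex hi2 ⟨hi1, by omega, mem_ball.1 hcon⟩

end Pool.Agent.Y306.CO.C1
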